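import Mathlib

/-!
# Binary slaloms over names: the successor step

MP_b6db87_lc asks for a model of (R) in which (M) fails, that is, in which for every `a` and every partitioning
real `d` all reals of `L[a]` go through one `d`-binary slalom, while for some `a` the functions of `L[a]` are not
dominated by a real. Here the successor step of a finite support iteration which should give such a model.

Let `P` be a forcing notion with the countable chain condition which is good for unbounded families: for every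
`P`-name `τ` of an element of `ω^ω` there are countably many functions `h k` such that every `f` which is dominated
by no `h k` is forced not to be dominated by `τ`. Let `D` be a `P`-name of a partitioning real. Then there are a
forcing notion `Q` with the same two properties, a projection `π : Q → P`, and a `Q`-name `B` of a `D`-binary slalom,
such that every real which has a `P`-name is forced to go through `B`. The limit steps are not treated here.

Conditions: `p ∈ P` deciding `D 0, …, D N`, a slalom of length `N`, at most `N` names of reals. Goodness: let `τ` be a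
`Q`-name. If no bound for `τ(n)` on all conditions with a given finite part could be forced, then for every `v`
there would be (densely) conditions with this finite part and names `G` of reals which force `τ(n) > v`. The leftmost
branch of the tree of those beginnings of the `G` which are realised for infinitely many `v` gives names `G'`; the
condition with `G'` has an extension deciding `τ(n)`, and this extension is compatible with one of the conditions
above with a large `v`. So the bounds form a `P`-name.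
-/

set_option autoImplicit false

namespace Pool.Agent.Results.MP_b6db87_lc.SlalomOverNames

open Filter

/-! ### Forcing notions and names -/

/-- `p` and `q` are compatible. -/
def Compat {P : Type} [Preorder P] (p q : P) : Prop := ∃ r, r ≤ p ∧ r ≤ q

/-- The countable chain condition. -/
def CCC (P : Type) [Preorder P] : Prop :=
  ∀ A : Set P, (∀ p ∈ A, ∀ q ∈ A, p ≠ q → ¬ Compat p q) → A.Countable

/-- A `P`-name `τ` for a sequence of elements of `α`, given by the relation `dec p n v`: the condition `p`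
forces `τ(n) = v`. Densely many conditions force a value. -/
structure Name (P : Type) [Preorder P] (α : Type) where
  dec : P → ℕ → α → Prop
  mono : ∀ p q n v, q ≤ p → dec p n v → dec q n v
  func : ∀ p n v w, dec p n v → dec p n w → v = w
  dense : ∀ n p, ∃ q ≤ p, ∃ v, dec q n v

/-- `f` is forced not to be eventually dominated by `τ`. -/
def NotDominated {P : Type} [Preorder P] (τ : Name P ℕ) (f : ℕ → ℕ) : Prop :=
  ∀ (p : P) (N : ℕ), ∃ n ≥ N, ∃ q ≤ p, ∃ v, τ.dec q n v ∧ v < f n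

/-- `P` is good for unbounded families. -/
def Good (P : Type) [Preorder P] : Prop :=
  ∀ τ : Name P ℕ, ∃ h : ℕ → ℕ → ℕ, ∀ f : ℕ → ℕ, (∀ k, ¬ ∀ᶠ n in atTop, f n ≤ h k n) → NotDominated τ f

/-- `D` is forced to be a partitioning real: `D(0) = 0` and `D` is strictly increasing. -/
def Partitioning {P : Type} [Preorder P] (D : Name P ℕ) : Prop :=
  (∀ p v, D.dec p 0 v → v = 0) ∧ ∀ p n v w, D.dec p n v → D.dec p (n + 1) w → v < w

/-- The word `x(a), …, x(b - 1)`. -/
def word (x : ℕ → Bool) (a b : ℕ) : List Bool := (List.range' a (b - a)).map x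

theorem word_congr {x y : ℕ → Bool} {a b : ℕ} (h : ∀ i, a ≤ i → i < b → x i = y i) :
    word x a b = word y a b := by
  unfold word
  refine List.map_congr_left fun i hi => ?_
  rw [List.mem_range'_1] at hi
  exact h i hi.1 (by omega)

/-- `p` forces that the restriction of `F` to `[a, b)` is in `S`. -/
def Forces {P : Type} [Preorder P] (F : Name P Bool) (p : P) (a b : ℕ) (S : Finset (List Bool)) : Prop :=
  ∀ r ≤ p, ∀ w : ℕ → Bool, (∀ i, a ≤ i → i < b → F.dec r i (w i)) → word w a b ∈ S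

theorem meet {P ι : Type} [Preorder P] (D : ι → P → Prop) (p₀ : P)
    (mono : ∀ i p q, q ≤ p → D i p → D i q) (dense : ∀ i, ∀ p ≤ p₀, ∃ q ≤ p, D i q) (s : Finset ι) :
    ∃ q ≤ p₀, ∀ i ∈ s, D i q := by
  classical
  induction s using Finset.induction_on with
  | empty => exact ⟨p₀, le_rfl, by simp⟩
  | insert a s ha ih =>
    obtain ⟨q, hq, h⟩ := ih
    obtain ⟨r, hr, h'⟩ := dense a q hq
    refine ⟨r, hr.trans hq, fun i hi => ?_⟩
    rcases Finset.mem_insert.1 hi with rfl | hi
    · exact h'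
    · exact mono i q r hr (h i hi)

/-- Finitely many values of a sequence of names can be decided. -/
theorem decide_fin {P α : Type} [Preorder P] [Inhabited α] {c : ℕ} (F : Fin c → Name P α) (K : ℕ) (p : P) :
    ∃ q ≤ p, ∃ W : Fin c → ℕ → α, ∀ j, ∀ i < K, (F j).dec q i (W j i) := by
  obtain ⟨q, hq, h⟩ := meet (ι := Fin c × ℕ) (fun x r => ∃ b, (F x.1).dec r x.2 b) p
    (fun x r r' hr h => h.imp fun b hb => (F x.1).mono _ _ _ _ hr hb)
    (fun x r _ => (F x.1).dense x.2 r) (Finset.univ ×ˢ Finset.range K)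
  classical
  have h' : ∀ j : Fin c, ∀ i : ℕ, ∃ b, i < K → (F j).dec q i b := by
    intro j i
    by_cases hi : i < K
    · obtain ⟨b, hb⟩ := h (j, i) (by simp [hi])
      exact ⟨b, fun _ => hb⟩
    · exact ⟨default, fun h => absurd h hi⟩
  choose W hW using h'
  exact ⟨q, hq, W, fun j i hi => hW j i hi⟩

/-! ### Conditions -/

section

variable {P : Type} [Preorder P] {D : Name P ℕ}

/-- Conditions: `p ∈ P` deciding `D` on `{0, …, N}` as `e`, a finite slalom `s` of length `N`, and finitely many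
`P`-names `F 0, …, F (c - 1)` of reals, `c ≤ N`. -/
structure Cond (D : Name P ℕ) where
  p : P
  e : List ℕ
  s : List (Finset (List Bool))
  c : ℕ
  F : Fin c → Name P Bool
  len : e.length = s.length + 1
  dec : ∀ i < e.length, D.dec p i (e.getD i 0)
  small : ∀ m < s.length, (s.getD m ∅).card ≤ m
  room : c ≤ s.length
  shape : ∀ m < s.length, ∀ w ∈ s.getD m ∅, w.length = e.getD (m + 1) 0 - e.getD m 0

theorem getD_pre {α : Type} {l l' : List α} (h : l <+: l') {i : ℕ} (hi : i < l.length) (a : α) :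
    l'.getD i a = l.getD i a := by
  obtain ⟨t, rfl⟩ := h
  exact List.getD_append _ _ _ _ hi

theorem Forces.mono {F : Name P Bool} {p q : P} {a b : ℕ} {S : Finset (List Bool)} (h : Forces F p a b S)
    (hq : q ≤ p) : Forces F q a b S := fun r hr w hw => h r (hr.trans hq) w hw

instance : Preorder (Cond D) where
  le q p := q.p ≤ p.p ∧ p.e <+: q.e ∧ p.s <+: q.s ∧ Set.range p.F ⊆ Set.range q.F ∧
    ∀ j, ∀ m, p.s.length ≤ m → m < q.s.length →
      Forces (p.F j) q.p (q.e.getD m 0) (q.e.getD (m + 1) 0) (q.s.getD m ∅)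
  le_refl p := ⟨le_rfl, List.prefix_rfl, List.prefix_rfl, subset_rfl,
    fun _ _ h h' => absurd h' (not_lt.2 h)⟩
  le_trans r q p h1 h2 := by
    obtain ⟨a1, a2, a3, a4, a5⟩ := h1
    obtain ⟨b1, b2, b3, b4, b5⟩ := h2
    refine ⟨a1.trans b1, b2.trans a2, b3.trans a3, b4.trans a4, fun j m h h' => ?_⟩
    by_cases hm : m < q.s.length
    · rw [getD_pre a3 hm, getD_pre a2 (show m < q.e.length by have := q.len; omega),
        getD_pre a2 (show m + 1 < q.e.length by have := q.len; omega)]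
      exact (b5 j m h hm).mono a1
    · obtain ⟨i, hi⟩ := b4 ⟨j, rfl⟩
      rw [← hi]
      exact a5 i m (not_lt.1 hm) h'

theorem le_def {q p : Cond D} : q ≤ p ↔ q.p ≤ p.p ∧ p.e <+: q.e ∧ p.s <+: q.s ∧
    Set.range p.F ⊆ Set.range q.F ∧ ∀ j, ∀ m, p.s.length ≤ m → m < q.s.length →
      Forces (p.F j) q.p (q.e.getD m 0) (q.e.getD (m + 1) 0) (q.s.getD m ∅) := Iff.rfl

/-- Decide `D` up to `L`. -/
theorem decide_D (C : Cond D) (L : ℕ) (hL : C.s.length ≤ L) (q : P) (hq : q ≤ C.p) :
    ∃ r ≤ q, ∃ e' : List ℕ, C.e <+: e' ∧ e'.length = L + 1 ∧ ∀ i < e'.length, D.dec r i (e'.getD i 0) := by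
  obtain ⟨r, hr, W, hW⟩ := decide_fin (fun _ : Fin 1 => D) (L + 1) q
  refine ⟨r, hr, (List.range (L + 1)).map (W 0), ?_, by simp, fun i hi => ?_⟩
  · have hlen := C.len
    rw [List.prefix_iff_eq_take]
    refine List.ext_getElem (by simp; omega) fun i h1 h2 => ?_
    have h3 := C.dec i h1
    have h4 := hW 0 i (by omega)
    have h5 := D.func r i _ _ (D.mono _ _ _ _ (hr.trans hq) h3) h4
    rw [List.getD_eq_getElem _ _ h1] at h5
    simp [h5]
  · rw [List.length_map, List.length_range] at hi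
    have h4 := hW 0 i hi
    rw [List.getD_eq_getElem _ _ (by simpa using hi)]
    simpa using h4

/-- The new part of the slalom: the words of `W` on the intervals given by `e`. -/
def newS {c : ℕ} (e : List ℕ) (W : Fin c → ℕ → Bool) (N L : ℕ) : List (Finset (List Bool)) :=
  (List.range' N (L - N)).map fun m =>
    Finset.univ.image fun j => word (W j) (e.getD m 0) (e.getD (m + 1) 0)

theorem newS_getD {c : ℕ} (s : List (Finset (List Bool))) (e : List ℕ) (W : Fin c → ℕ → Bool) {L m : ℕ}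
    (h1 : s.length ≤ m) (h2 : m < L) : (s ++ newS e W s.length L).getD m ∅ =
      Finset.univ.image fun j => word (W j) (e.getD m 0) (e.getD (m + 1) 0) := by
  rw [List.getD_append_right _ _ _ _ h1]
  unfold newS
  have h3 : m - s.length < ((List.range' s.length (L - s.length)).map fun m =>
    Finset.univ.image fun j => word (W j) (e.getD m 0) (e.getD (m + 1) 0)).length := by
    simp; omega
  rw [List.getD_eq_getElem _ _ h3]
  simp
  rw [Nat.add_sub_cancel' h1]

/-- Extension of a condition. -/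
def ext (C : Cond D) {L k : ℕ} (hL : C.s.length ≤ L) (hk : C.c + k ≤ L) (q : P) (e' : List ℕ)
    (he : C.e <+: e') (hlen : e'.length = L + 1) (hdec : ∀ i < e'.length, D.dec q i (e'.getD i 0))
    (W : Fin C.c → ℕ → Bool) (G : Fin k → Name P Bool) : Cond D where
  p := q
  e := e'
  s := C.s ++ newS e' W C.s.length L
  c := C.c + k
  F := Fin.append C.F G
  len := by simp [newS]; omega
  dec := hdec
  small m hm := by
    by_cases h : m < C.s.length
    · rw [List.getD_append _ _ _ _ h]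
      exact C.small m h
    · have h2 : m < L := by
        simp [newS] at hm; omega
      rw [newS_getD _ _ _ (not_lt.1 h) h2]
      refine Finset.card_image_le.trans ?_
      have := C.room
      simp
      omega
  room := by simp [newS]; omega
  shape m hm w hw := by
    by_cases h : m < C.s.length
    · rw [List.getD_append _ _ _ _ h] at hw
      rw [getD_pre he (show m < C.e.length by have := C.len; omega),
        getD_pre he (show m + 1 < C.e.length by have := C.len; omega)]
      exact C.shape m h w hw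
    · have h2 : m < L := by
        simp [newS] at hm; omega
      rw [newS_getD _ _ _ (not_lt.1 h) h2] at hw
      obtain ⟨j, -, rfl⟩ := Finset.mem_image.1 hw
      simp [word]

theorem ext_len (C : Cond D) {L k : ℕ} (hL : C.s.length ≤ L) (hk : C.c + k ≤ L) (q : P) (e' : List ℕ)
    (he : C.e <+: e') (hlen : e'.length = L + 1) (hdec : ∀ i < e'.length, D.dec q i (e'.getD i 0))
    (W : Fin C.c → ℕ → Bool) (G : Fin k → Name P Bool) :
    (ext C hL hk q e' he hlen hdec W G).s.length = L := by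
  simp [ext, newS]
  omega

theorem mono_e (hD : Partitioning D) {q : P} {e : List ℕ} (hdec : ∀ i < e.length, D.dec q i (e.getD i 0))
    {m L : ℕ} (hm : m ≤ L) (hL : L < e.length) : e.getD m 0 ≤ e.getD L 0 := by
  induction L, hm using Nat.le_induction with
  | base => exact le_rfl
  | succ n hn ih =>
    exact (ih (by omega)).trans (hD.2 q n _ _ (hdec n (by omega)) (hdec (n + 1) hL)).le

theorem ext_le (hD : Partitioning D) (C : Cond D) {L k : ℕ} (hL : C.s.length ≤ L) (hk : C.c + k ≤ L)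
    (q : P) (hq : q ≤ C.p) (e' : List ℕ) (he : C.e <+: e')
    (hlen : e'.length = L + 1) (hdec : ∀ i < e'.length, D.dec q i (e'.getD i 0))
    (W : Fin C.c → ℕ → Bool) (hW : ∀ j, ∀ i < e'.getD L 0, (C.F j).dec q i (W j i))
    (G : Fin k → Name P Bool) : ext C hL hk q e' he hlen hdec W G ≤ C := by
  refine ⟨hq, he, List.prefix_append _ _, ?_, fun j m h h' => ?_⟩
  · rintro _ ⟨j, rfl⟩
    exact ⟨Fin.castAdd k j, Fin.append_left _ _ _⟩
  · rw [ext_len] at h'
    have e1 : (ext C hL hk q e' he hlen hdec W G).s.getD m ∅ =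
        Finset.univ.image fun j => word (W j) (e'.getD m 0) (e'.getD (m + 1) 0) := newS_getD _ _ _ h h'
    rw [e1]
    intro r hr w hw
    refine Finset.mem_image.2 ⟨j, Finset.mem_univ _, word_congr fun i h1 h2 => ?_⟩
    have h3 := mono_e hD hdec (show m + 1 ≤ L by omega) (by omega)
    exact (C.F j).func r i _ _ ((C.F j).mono _ _ _ _ hr (hW j i (lt_of_lt_of_le h2 h3))) (hw i h1 h2)

end

/-! ### Cluster points of names -/

section Cluster

variable {P : Type} [Preorder P] {c : ℕ} (Wit : ℕ → P → (Fin c → Name P Bool) → Prop)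

/-- `q` forces that for infinitely many `v` there is a witness in the generic filter whose names start with `σ`. -/
def Phi (q : P) (i : ℕ) (σ : ℕ → Fin c → Bool) : Prop :=
  ∀ q' ≤ q, ∀ m, ∃ q'' ≤ q', ∃ v ≥ m, ∃ r G, Wit v r G ∧ q'' ≤ r ∧
    ∀ j, ∀ i' < i, (G j).dec q'' i' (σ i' j)

variable {Wit}

theorem Phi.mono {q q' : P} {i : ℕ} {σ : ℕ → Fin c → Bool} (h : Phi Wit q i σ) (hq : q' ≤ q) :
    Phi Wit q' i σ := fun r hr => h r (hr.trans hq)

theorem Phi.congr {q : P} {i : ℕ} {σ σ' : ℕ → Fin c → Bool} (h : Phi Wit q i σ)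
    (he : ∀ i' < i, σ i' = σ' i') : Phi Wit q i σ' := by
  intro q' hq' m
  obtain ⟨q'', h1, v, hv, r, G, h2, h3, h4⟩ := h q' hq' m
  exact ⟨q'', h1, v, hv, r, G, h2, h3, fun j i' hi' => by rw [← he i' hi']; exact h4 j i' hi'⟩

theorem Phi.step {q : P} {i : ℕ} {σ : ℕ → Fin c → Bool} (h : Phi Wit q i σ) :
    ∃ q' ≤ q, ∃ k, Phi Wit q' (i + 1) (Function.update σ i k) := by
  classical
  by_contra hcon
  push Not at hcon
  obtain ⟨q', hq', hb⟩ := meet (ι := Fin c → Bool) (fun k r => ∃ m, ∀ r' ≤ r, ∀ v ≥ m, ∀ t G,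
      Wit v t G → r' ≤ t → ¬ ∀ j, ∀ i' < i + 1, (G j).dec r' i' (Function.update σ i k i' j)) q
    (fun k p p' hp h => h.imp fun m hm r' hr' => hm r' (hr'.trans hp))
    (fun k p hp => by
      have h1 := hcon p hp k
      unfold Phi at h1
      push Not at h1
      obtain ⟨r, hr, m, hm⟩ := h1
      refine ⟨r, hr, m, fun r' hr' v hv t G h2 h3 hall => ?_⟩
      obtain ⟨j, i', hi', hn⟩ := hm r' hr' v hv t G h2 h3
      exact hn (hall j i' hi')) Finset.univ
  choose m hm using fun k => hb k (Finset.mem_univ k)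
  obtain ⟨q'', h1, v, hv, r, G, h2, h3, h4⟩ := h q' hq' (Finset.univ.sup m)
  obtain ⟨q3, h5, W, hW⟩ := decide_fin G (i + 1) q''
  refine hm (fun j => W j i) q3 (h5.trans h1) v ((Finset.le_sup (Finset.mem_univ _)).trans hv) r G h2
    (h5.trans h3) ?_
  intro j i' hi'
  rcases eq_or_ne i' i with rfl | hne
  · rw [Function.update_self]
    exact hW j i' (Nat.lt_succ_self _)
  · rw [Function.update_of_ne hne]
    exact (G j).mono _ _ _ _ h5 (h4 j i' (by omega))

variable (Wit) in
/-- `q` forces that `σ 0, …, σ (i - 1)` is the beginning of the leftmost branch. -/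
def Path (q : P) (i : ℕ) (σ : ℕ → Fin c → Bool) : Prop :=
  ∀ j < i, Phi Wit q (j + 1) σ ∧ ∀ k' : Fin c → Bool, Encodable.encode k' < Encodable.encode (σ j) →
    ∀ q' ≤ q, ¬ Phi Wit q' (j + 1) (Function.update σ j k')

theorem Path.mono {q q' : P} {i : ℕ} {σ : ℕ → Fin c → Bool} (h : Path Wit q i σ) (hq : q' ≤ q) :
    Path Wit q' i σ := fun j hj =>
  ⟨(h j hj).1.mono hq, fun k' hk r hr => (h j hj).2 k' hk r (hr.trans hq)⟩

theorem Path.sub {q : P} {i i' : ℕ} {σ : ℕ → Fin c → Bool} (h : Path Wit q i σ) (hi : i' ≤ i) :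
    Path Wit q i' σ := fun j hj => h j (hj.trans_le hi)

theorem Path.func {q : P} {i : ℕ} {σ σ' : ℕ → Fin c → Bool} (h1 : Path Wit q i σ)
    (h2 : Path Wit q i σ') : ∀ j < i, σ j = σ' j := by
  intro j
  induction j using Nat.strong_induction_on with
  | _ j ih =>
    intro hj
    have hag : ∀ i' < j, σ i' = σ' i' := fun i' hi' => ih i' hi' (hi'.trans hj)
    rcases lt_trichotomy (Encodable.encode (σ j)) (Encodable.encode (σ' j)) with h | h | h
    · refine absurd ((h1 j hj).1.congr fun i' hi' => ?_) ((h2 j hj).2 (σ j) h q le_rfl)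
      rcases eq_or_ne i' j with rfl | hne
      · rw [Function.update_self]
      · rw [Function.update_of_ne hne]
        exact hag i' (by omega)
    · exact Encodable.encode_injective h
    · refine absurd ((h2 j hj).1.congr fun i' hi' => ?_) ((h1 j hj).2 (σ' j) h q le_rfl)
      rcases eq_or_ne i' j with rfl | hne
      · rw [Function.update_self]
      · rw [Function.update_of_ne hne]
        exact (hag i' (by omega)).symm

theorem exists_path {p₁ : P} (H : ∀ σ, Phi Wit p₁ 0 σ) : ∀ (i : ℕ), ∀ q ≤ p₁, ∃ q' ≤ q,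
    ∃ σ, Path Wit q' i σ ∧ Phi Wit q' i σ := by
  intro i
  induction i with
  | zero =>
    intro q hq
    exact ⟨q, le_rfl, fun _ _ => false, fun j hj => absurd hj (Nat.not_lt_zero _), (H _).mono hq⟩
  | succ i ih =>
    intro q hq
    obtain ⟨q', hq', σ, hp, hphi⟩ := ih q hq
    obtain ⟨q1, hq1, k1, hk1⟩ := hphi.step
    have hS : {a | ∃ q2 ≤ q', ∃ k : Fin c → Bool, Encodable.encode k = a ∧
        Phi Wit q2 (i + 1) (Function.update σ i k)}.Nonempty := ⟨_, q1, hq1, k1, rfl, hk1⟩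
    obtain ⟨q2, hq2, k, hk, hphi2⟩ := Nat.sInf_mem hS
    refine ⟨q2, hq2.trans hq', Function.update σ i k, fun j hj => ?_, hphi2⟩
    rcases Nat.lt_succ_iff_lt_or_eq.1 hj with hj | rfl
    · refine ⟨((hp j hj).1.mono hq2).congr fun i' hi' => ?_, fun k' hk' r hr hphi' => ?_⟩
      · rw [Function.update_of_ne (by omega)]
      · rw [Function.update_of_ne (show j ≠ i by omega)] at hk'
        refine (hp j hj).2 k' hk' r (hr.trans hq2) (hphi'.congr fun i' hi' => ?_)
        rcases eq_or_ne i' j with rfl | hne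
        · rw [Function.update_self, Function.update_self]
        · rw [Function.update_of_ne hne, Function.update_of_ne (show i' ≠ i by omega),
            Function.update_of_ne hne]
    · refine ⟨hphi2, fun k' hk' r hr hphi' => ?_⟩
      rw [Function.update_self] at hk'
      rw [Function.update_idem] at hphi'
      have h1 := Nat.sInf_le (show Encodable.encode k' ∈ {a | ∃ q2 ≤ q', ∃ k : Fin c → Bool,
        Encodable.encode k = a ∧ Phi Wit q2 (j + 1) (Function.update σ j k)} from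
          ⟨r, hr.trans hq2, k', rfl, hphi'⟩)
      omega

/-- The name of the `j`-th coordinate of the leftmost branch. -/
def clus (p₁ : P) (H : ∀ σ, Phi Wit p₁ 0 σ) (j : Fin c) : Name P Bool where
  dec q i b := (q ≤ p₁ ∧ ∃ σ, Path Wit q (i + 1) σ ∧ σ i j = b) ∨ ((∀ r ≤ q, ¬ r ≤ p₁) ∧ b = false)
  mono := by
    rintro p q n v hqp (⟨h1, σ, h2, h3⟩ | ⟨h1, h2⟩)
    · exact Or.inl ⟨hqp.trans h1, σ, h2.mono hqp, h3⟩
    · exact Or.inr ⟨fun r hr => h1 r (hr.trans hqp), h2⟩
  func := by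
    rintro p n v w (⟨h1, σ, h2, h3⟩ | ⟨h1, h2⟩) (⟨h1', σ', h2', h3'⟩ | ⟨h1', h2'⟩)
    · rw [← h3, ← h3', h2.func h2' n (Nat.lt_succ_self _)]
    · exact absurd h1 (h1' p le_rfl)
    · exact absurd h1' (h1 p le_rfl)
    · rw [h2, h2']
  dense := by
    intro n p
    by_cases h : ∃ r ≤ p, r ≤ p₁
    · obtain ⟨r, hr, hr1⟩ := h
      obtain ⟨q', hq', σ, hp, -⟩ := exists_path H (n + 1) r hr1
      exact ⟨q', hq'.trans hr, σ n j, Or.inl ⟨hq'.trans hr1, σ, hp, rfl⟩⟩
    · push Not at h
      exact ⟨p, le_rfl, false, Or.inr ⟨h, rfl⟩⟩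

variable (Wit) in
theorem cluster (p₁ : P) (H : ∀ q ≤ p₁, ∀ v, ∃ r ≤ q, ∃ G, Wit v r G) :
    ∃ Gs : Fin c → Name P Bool, ∀ q ≤ p₁, ∀ K, ∃ q' ≤ q, ∃ σ : ℕ → Fin c → Bool,
      (∀ j, ∀ i < K, (Gs j).dec q' i (σ i j)) ∧ Phi Wit q' K σ := by
  have H0 : ∀ σ, Phi Wit p₁ 0 σ := by
    intro σ q' hq' m
    obtain ⟨r, hr, G, hG⟩ := H q' hq' m
    exact ⟨r, hr, m, le_rfl, r, G, hG, le_rfl, fun _ _ h => absurd h (Nat.not_lt_zero _)⟩
  refine ⟨clus p₁ H0, fun q hq K => ?_⟩
  obtain ⟨q', hq', σ, hp, hphi⟩ := exists_path H0 K q hq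
  exact ⟨q', hq', σ, fun j i hi => Or.inl ⟨hq'.trans hq, σ, hp.sub hi, rfl⟩, hphi⟩

end Cluster

/-! ### Goodness -/

section Main

variable {P : Type} [Preorder P] {D : Name P ℕ}

theorem bound_dense (hD : Partitioning D) (τ : Name (Cond D) ℕ) (n : ℕ) (e : List ℕ)
    (s : List (Finset (List Bool))) (c : ℕ) (p : P) : ∃ q ≤ p, ∃ v, ∀ C : Cond D, C.p ≤ q → C.e = e →
      C.s = s → C.c = c → ∃ C' ≤ C, ∃ w ≤ v, τ.dec C' n w := by
  by_contra hcon
  push Not at hcon
  obtain ⟨C0, h1, h2, h3, h4, -⟩ := hcon p le_rfl 0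
  have len : e.length = s.length + 1 := by rw [← h2, ← h3]; exact C0.len
  have small : ∀ m < s.length, (s.getD m ∅).card ≤ m := by rw [← h3]; exact C0.small
  have room : c ≤ s.length := by rw [← h3, ← h4]; exact C0.room
  have shape : ∀ m < s.length, ∀ w ∈ s.getD m ∅, w.length = e.getD (m + 1) 0 - e.getD m 0 := by
    rw [← h2, ← h3]
    exact C0.shape
  have hp1 : ∀ i < e.length, D.dec C0.p i (e.getD i 0) := by rw [← h2]; exact C0.dec
  obtain ⟨Gs, hGs⟩ := cluster (c := c) (fun v r G => ∃ hr : ∀ i < e.length, D.dec r i (e.getD i 0),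
    ∀ C' ≤ (⟨r, e, s, c, G, len, hr, small, room, shape⟩ : Cond D), ∀ w ≤ v, ¬ τ.dec C' n w) C0.p
    (fun q hq v => by
      obtain ⟨C, c1, c2, c3, c4, c5⟩ := hcon q (hq.trans h1) v
      obtain ⟨p', e', s', c', F, l, d, sm, ro, sh⟩ := C
      dsimp only at c1 c2 c3 c4
      subst c2
      subst c3
      subst c4
      exact ⟨p', c1, F, d, c5⟩)
  obtain ⟨C, hC, w, hw⟩ := τ.dense n ⟨C0.p, e, s, c, Gs, len, hp1, small, room, shape⟩
  obtain ⟨a1, a2, a3, a4, a5⟩ := hC
  dsimp only at a1 a2 a3 a4 a5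
  have hL : C.s.length ≤ C.s.length + c := Nat.le_add_right _ _
  have hk : C.c + c ≤ C.s.length + c := by have := C.room; omega
  obtain ⟨p2, hp2, e', he, hlen, hdec⟩ := decide_D C (C.s.length + c) hL C.p le_rfl
  obtain ⟨q, hq, σ, hσ, hΦ⟩ := hGs p2 (hp2.trans a1) (e'.getD (C.s.length + c) 0)
  obtain ⟨q2, hq2, v, hv, r, G, ⟨hr, hwit⟩, hqr, hG⟩ := hΦ q le_rfl w
  obtain ⟨q3, hq3, W, hW⟩ := decide_fin C.F (e'.getD (C.s.length + c) 0) q2
  have hdec3 : ∀ i < e'.length, D.dec q3 i (e'.getD i 0) := fun i hi =>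
    D.mono _ _ _ _ (hq3.trans (hq2.trans hq)) (hdec i hi)
  have hqC : q3 ≤ C.p := hq3.trans (hq2.trans (hq.trans hp2))
  have hle := ext_le hD C hL hk q3 hqC e' he hlen hdec3 W hW G
  refine hwit (ext C hL hk q3 e' he hlen hdec3 W G) ?_ w hv (τ.mono _ _ _ _ hle hw)
  refine ⟨hq3.trans hqr, a2.trans he, a3.trans (List.prefix_append _ _), ?_, fun j m h h' => ?_⟩
  · rintro _ ⟨j, rfl⟩
    exact ⟨Fin.natAdd C.c j, Fin.append_right _ _ _⟩
  · rw [ext_len] at h'
    dsimp only at h
    have hm1 : e'.getD (m + 1) 0 ≤ e'.getD (C.s.length + c) 0 := mono_e hD hdec3 (by omega) (by omega)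
    intro r' hr' x hx
    have hx' : ∀ i, e'.getD m 0 ≤ i → i < e'.getD (m + 1) 0 → x i = σ i j := fun i h1 h2 =>
      (G j).func r' i _ _ (hx i h1 h2) ((G j).mono _ _ _ _ (hr'.trans hq3)
        (hG j i (lt_of_lt_of_le h2 hm1)))
    by_cases hm : m < C.s.length
    · have e1 : (C.s ++ newS e' W C.s.length (C.s.length + c)).getD m ∅ = C.s.getD m ∅ :=
        List.getD_append _ _ _ _ hm
      have e2 : e'.getD m 0 = C.e.getD m 0 := getD_pre he (by have := C.len; omega) 0
      have e3 : e'.getD (m + 1) 0 = C.e.getD (m + 1) 0 := getD_pre he (by have := C.len; omega) 0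
      show word x (e'.getD m 0) (e'.getD (m + 1) 0) ∈
        (C.s ++ newS e' W C.s.length (C.s.length + c)).getD m ∅
      rw [e1, e2, e3]
      refine a5 j m h hm q3 hqC x fun i h1 h2 => ?_
      rw [← e2] at h1
      rw [← e3] at h2
      rw [hx' i h1 h2]
      exact (Gs j).mono _ _ _ _ (hq3.trans hq2) (hσ j i (lt_of_lt_of_le h2 hm1))
    · obtain ⟨a, ha⟩ := a4 ⟨j, rfl⟩
      show word x (e'.getD m 0) (e'.getD (m + 1) 0) ∈
        (C.s ++ newS e' W C.s.length (C.s.length + c)).getD m ∅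
      rw [newS_getD _ _ _ (not_lt.1 hm) h']
      refine Finset.mem_image.2 ⟨a, Finset.mem_univ _, word_congr fun i h1 h2 => ?_⟩
      rw [hx' i h1 h2]
      have h3 := hW a i (lt_of_lt_of_le h2 hm1)
      rw [ha] at h3
      exact (Gs j).func q3 i _ _ h3 ((Gs j).mono _ _ _ _ (hq3.trans hq2)
        (hσ j i (lt_of_lt_of_le h2 hm1)))

/-- Bounds for the values of a name give a name over `P`. -/
def boundName (hD : Partitioning D) (τ : Name (Cond D) ℕ) (t : List ℕ × List (Finset (List Bool)) × ℕ) :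
    Name P ℕ where
  dec q n v := (∀ C : Cond D, C.p ≤ q → C.e = t.1 → C.s = t.2.1 → C.c = t.2.2 →
      ∃ C' ≤ C, ∃ w ≤ v, τ.dec C' n w) ∧ ∀ r ≤ q, ∀ v' < v, ¬ ∀ C : Cond D, C.p ≤ r → C.e = t.1 →
      C.s = t.2.1 → C.c = t.2.2 → ∃ C' ≤ C, ∃ w ≤ v', τ.dec C' n w
  mono := fun p q n v hqp h => ⟨fun C hC => h.1 C (hC.trans hqp), fun r hr => h.2 r (hr.trans hqp)⟩
  func := by
    intro p n v w h1 h2
    rcases lt_trichotomy v w with h | h | h
    · exact absurd h1.1 (h2.2 p le_rfl v h)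
    · exact h
    · exact absurd h2.1 (h1.2 p le_rfl w h)
  dense := by
    intro n p
    have hS : {v | ∃ q ≤ p, ∀ C : Cond D, C.p ≤ q → C.e = t.1 → C.s = t.2.1 → C.c = t.2.2 →
        ∃ C' ≤ C, ∃ w ≤ v, τ.dec C' n w}.Nonempty := by
      obtain ⟨q, hq, v, hv⟩ := bound_dense hD τ n t.1 t.2.1 t.2.2 p
      exact ⟨v, q, hq, hv⟩
    obtain ⟨q, hq, hv⟩ := Nat.sInf_mem hS
    refine ⟨q, hq, _, hv, fun r hr v' hv' hcon => ?_⟩
    exact absurd hv' (not_lt.2 (Nat.sInf_le ⟨r, hr.trans hq, hcon⟩))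

theorem good_cond (hD : Partitioning D) (hP : Good P) : Good (Cond D) := by
  intro τ
  choose h hh using fun t => hP (boundName hD τ t)
  obtain ⟨enc, henc⟩ := exists_surjective_nat (List ℕ × List (Finset (List Bool)) × ℕ)
  refine ⟨fun k => h (enc k.unpair.1) k.unpair.2, fun f hf C N => ?_⟩
  obtain ⟨k, hk⟩ := henc (C.e, C.s, C.c)
  have h1 : NotDominated (boundName hD τ (C.e, C.s, C.c)) f := hh _ f fun l => by
    have := hf (Nat.pair k l)
    simpa [hk] using this
  obtain ⟨n, hn, q, hq, v, ⟨hv, -⟩, hvf⟩ := h1 C.p N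
  have hd : ∀ i < C.e.length, D.dec q i (C.e.getD i 0) := fun i hi => D.mono _ _ _ _ hq (C.dec i hi)
  obtain ⟨C', hC', w, hw, hdec⟩ := hv ⟨q, C.e, C.s, C.c, C.F, C.len, hd, C.small, C.room, C.shape⟩
    le_rfl rfl rfl rfl
  refine ⟨n, hn, C', hC'.trans ?_, w, hdec, by omega⟩
  exact ⟨hq, List.prefix_rfl, List.prefix_rfl, subset_rfl, fun _ _ h h' => absurd h' (not_lt.2 h)⟩

/-! ### The countable chain condition -/

theorem exists_room (hD : Partitioning D) (C : Cond D) : ∃ C' ≤ C, 2 * C'.c ≤ C'.s.length := by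
  have hL : C.s.length ≤ C.s.length + 2 * C.c := Nat.le_add_right _ _
  have hk : C.c + 0 ≤ C.s.length + 2 * C.c := by omega
  obtain ⟨p2, hp2, e', he, hlen, hdec⟩ := decide_D C (C.s.length + 2 * C.c) hL C.p le_rfl
  obtain ⟨q3, hq3, W, hW⟩ := decide_fin C.F (e'.getD (C.s.length + 2 * C.c) 0) p2
  have hdec3 : ∀ i < e'.length, D.dec q3 i (e'.getD i 0) := fun i hi =>
    D.mono _ _ _ _ hq3 (hdec i hi)
  refine ⟨ext C hL hk q3 e' he hlen hdec3 W Fin.elim0,
    ext_le hD C hL hk q3 (hq3.trans hp2) e' he hlen hdec3 W hW _, ?_⟩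
  rw [ext_len]
  show 2 * (C.c + 0) ≤ _
  omega

theorem ccc_cond (hD : Partitioning D) (hP : CCC P) : CCC (Cond D) := by
  intro A hA
  choose ρ hρ h2 using exists_room hD
  have e1 : A = ⋃ t : List ℕ × List (Finset (List Bool)) × ℕ,
      {C | C ∈ A ∧ ((ρ C).e, (ρ C).s, (ρ C).c) = t} := by
    ext C
    simp
  rw [e1]
  refine Set.countable_iUnion fun t => ?_
  have hinc : ∀ C ∈ {C | C ∈ A ∧ ((ρ C).e, (ρ C).s, (ρ C).c) = t},
      ∀ C' ∈ {C | C ∈ A ∧ ((ρ C).e, (ρ C).s, (ρ C).c) = t}, C ≠ C' → ¬ Compat (ρ C).p (ρ C').p := by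
    rintro C ⟨hC, h3⟩ C' ⟨hC', h4⟩ hne ⟨r, hr, hr'⟩
    have h5 := h3.trans h4.symm
    simp only [Prod.mk.injEq] at h5
    obtain ⟨h6, h7, h8⟩ := h5
    have hroom : (ρ C).c + (ρ C').c ≤ (ρ C).s.length := by
      rw [← h8]
      have := h2 C
      omega
    have hd : ∀ i < (ρ C).e.length, D.dec r i ((ρ C).e.getD i 0) := fun i hi =>
      D.mono _ _ _ _ hr ((ρ C).dec i hi)
    refine hA C hC C' hC' hne ⟨⟨r, (ρ C).e, (ρ C).s, (ρ C).c + (ρ C').c, Fin.append (ρ C).F (ρ C').F,
      (ρ C).len, hd, (ρ C).small, hroom, (ρ C).shape⟩, le_trans ?_ (hρ C), le_trans ?_ (hρ C')⟩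
    · refine ⟨hr, List.prefix_rfl, List.prefix_rfl, ?_, fun _ _ h h' => absurd h' (not_lt.2 h)⟩
      rintro _ ⟨j, rfl⟩
      exact ⟨Fin.castAdd _ j, Fin.append_left _ _ _⟩
    · refine ⟨hr', ?_, ?_, ?_, fun _ m h h' => ?_⟩
      · show (ρ C').e <+: (ρ C).e
        rw [h6]
      · show (ρ C').s <+: (ρ C).s
        rw [h7]
      · rintro _ ⟨j, rfl⟩
        exact ⟨Fin.natAdd _ j, Fin.append_right _ _ _⟩
      · refine absurd h' (not_lt.2 ?_)
        show (ρ C).s.length ≤ m
        rw [h7]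
        exact h
  have h3 : ((fun C => (ρ C).p) '' {C | C ∈ A ∧ ((ρ C).e, (ρ C).s, (ρ C).c) = t}).Countable := by
    refine hP _ ?_
    rintro _ ⟨C, hC, rfl⟩ _ ⟨C', hC', rfl⟩ hne
    exact hinc C hC C' hC' fun h => hne (by rw [h])
  refine Set.countable_of_injective_of_countable_image ?_ h3
  intro C hC C' hC' heq
  by_contra hne
  exact hinc C hC C' hC' hne ⟨(ρ C).p, le_rfl, le_of_eq heq⟩

/-- The name of the slalom. -/
def slalom (hD : Partitioning D) : Name (Cond D) (Finset (List Bool)) where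
  dec C m S := m < C.s.length ∧ C.s.getD m ∅ = S
  mono := by
    rintro p q m S hqp ⟨h, rfl⟩
    exact ⟨h.trans_le hqp.2.2.1.length_le, getD_pre hqp.2.2.1 h _⟩
  func := by
    rintro p m S T ⟨-, rfl⟩ ⟨-, rfl⟩
    rfl
  dense := by
    intro m C
    have hL : C.s.length ≤ C.s.length + (m + 1) := Nat.le_add_right _ _
    have hk : C.c + 0 ≤ C.s.length + (m + 1) := by have := C.room; omega
    obtain ⟨p2, hp2, e', he, hlen, hdec⟩ := decide_D C (C.s.length + (m + 1)) hL C.p le_rfl
    obtain ⟨q3, hq3, W, hW⟩ := decide_fin C.F (e'.getD (C.s.length + (m + 1)) 0) p2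
    have hdec3 : ∀ i < e'.length, D.dec q3 i (e'.getD i 0) := fun i hi =>
      D.mono _ _ _ _ hq3 (hdec i hi)
    refine ⟨ext C hL hk q3 e' he hlen hdec3 W Fin.elim0,
      ext_le hD C hL hk q3 (hq3.trans hp2) e' he hlen hdec3 W hW _, _, ?_, rfl⟩
    rw [ext_len]
    omega

end Main

/-- A good forcing notion keeps unbounded families unbounded. -/
theorem Good.unbounded {P : Type} [Preorder P] (hP : Good P) (U : Set (ℕ → ℕ))
    (hU : ∀ g : ℕ → ℕ, ∃ f ∈ U, ¬ ∀ᶠ n in atTop, f n ≤ g n) (τ : Name P ℕ) :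
    ∃ f ∈ U, NotDominated τ f := by
  obtain ⟨h, hh⟩ := hP τ
  obtain ⟨f, hf, hfg⟩ := hU (fun n => (Finset.range (n + 1)).sup fun k => h k n)
  refine ⟨f, hf, hh f fun k hk => hfg ?_⟩
  filter_upwards [hk, eventually_ge_atTop k] with n hn hkn
  exact hn.trans (Finset.le_sup (f := fun k => h k n) (Finset.mem_range.2 (Nat.lt_succ_of_le hkn)))

/-- **Result.** Let `P` be a nonempty forcing notion with the countable chain condition which is good for unbounded
families, and `D` a `P`-name of a partitioning real. There are a forcing notion `Q`, a projection `π : Q → P`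
(monotone, with dense image, every `q ≤ π C` is `π C'` for some `C' ≤ C`), and a `Q`-name `B` of a `D`-binary slalom
(`B(m)` has at most `m` elements, words of length `D(m + 1) - D(m)`), such that for every `P`-name `x` of an element of
`2^ω` it is forced that `x` goes through `B`: below every condition there are `C'` and `m₀` such that `C'` forces
`x ↾ [D(m), D(m + 1)) ∈ B(m)` for all `m ≥ m₀`. Moreover `Q` has the countable chain condition, is good for unbounded
families, and so forces every unbounded family of functions to be unbounded. -/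
theorem result (P : Type) [Preorder P] [Nonempty P] (hccc : CCC P) (hgood : Good P) (D : Name P ℕ)
    (hD : Partitioning D) :
    ∃ (Q : Type) (_ : Preorder Q) (_ : Nonempty Q) (π : Q → P) (B : Name Q (Finset (List Bool))),
      (Monotone π ∧ (∀ C, ∀ q ≤ π C, ∃ C' ≤ C, π C' = q) ∧ ∀ p, ∃ C, π C ≤ p) ∧
      (∀ C m S, B.dec C m S → S.card ≤ m ∧ ∀ a b, D.dec (π C) m a → D.dec (π C) (m + 1) b →
        ∀ w ∈ S, w.length = b - a) ∧
      (∀ (x : Name P Bool) (C : Q), ∃ C' ≤ C, ∃ m₀, ∀ m ≥ m₀, ∀ C'' ≤ C', ∀ S a b,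
        B.dec C'' m S → D.dec (π C'') m a → D.dec (π C'') (m + 1) b → ∀ w : ℕ → Bool,
        (∀ i, a ≤ i → i < b → x.dec (π C'') i (w i)) → word w a b ∈ S) ∧
      CCC Q ∧ Good Q ∧
      (∀ U : Set (ℕ → ℕ), (∀ g : ℕ → ℕ, ∃ f ∈ U, ¬ ∀ᶠ n in atTop, f n ≤ g n) →
        ∀ τ : Name Q ℕ, ∃ f ∈ U, NotDominated τ f) := by
  have hdense : ∀ p : P, ∃ C : Cond D, C.p ≤ p := by
    intro p
    obtain ⟨q, hq, v, hv⟩ := D.dense 0 p
    refine ⟨⟨q, [v], [], 0, Fin.elim0, rfl, fun i hi => ?_, fun m hm => absurd hm (Nat.not_lt_zero _),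
      le_rfl, fun m hm => absurd hm (Nat.not_lt_zero _)⟩, hq⟩
    have hi0 : i = 0 := by simpa using hi
    subst hi0
    exact hv
  obtain ⟨p₀⟩ := ‹Nonempty P›
  obtain ⟨C₀, -⟩ := hdense p₀
  refine ⟨Cond D, inferInstance, ⟨C₀⟩, fun C => C.p, slalom hD, ⟨fun C C' h => h.1, fun C q hq => ?_, hdense⟩,
    ?_, fun x C => ?_, ccc_cond hD hccc, good_cond hD hgood,
    fun U hU τ => (good_cond hD hgood).unbounded U hU τ⟩
  · refine ⟨⟨q, C.e, C.s, C.c, C.F, C.len, fun i hi => D.mono _ _ _ _ hq (C.dec i hi), C.small,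
      C.room, C.shape⟩,
      ⟨hq, List.prefix_rfl, List.prefix_rfl, subset_rfl, fun _ _ h h' => absurd h' (not_lt.2 h)⟩, rfl⟩
  · rintro C m S ⟨h, rfl⟩
    refine ⟨C.small m h, fun a b ha hb w hw => ?_⟩
    have ea : a = C.e.getD m 0 := D.func _ _ _ _ ha (C.dec m (by have := C.len; omega))
    have eb : b = C.e.getD (m + 1) 0 := D.func _ _ _ _ hb (C.dec (m + 1) (by have := C.len; omega))
    rw [ea, eb]
    exact C.shape m h w hw
  · have hL : C.s.length ≤ C.s.length + 1 := Nat.le_add_right _ _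
    have hk : C.c + 1 ≤ C.s.length + 1 := by have := C.room; omega
    obtain ⟨p2, hp2, e', he, hlen, hdec⟩ := decide_D C (C.s.length + 1) hL C.p le_rfl
    obtain ⟨q3, hq3, W, hW⟩ := decide_fin C.F (e'.getD (C.s.length + 1) 0) p2
    have hdec3 : ∀ i < e'.length, D.dec q3 i (e'.getD i 0) := fun i hi =>
      D.mono _ _ _ _ hq3 (hdec i hi)
    refine ⟨ext C hL hk q3 e' he hlen hdec3 W (fun _ : Fin 1 => x),
      ext_le hD C hL hk q3 (hq3.trans hp2) e' he hlen hdec3 W hW _, C.s.length + 1, ?_⟩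
    rintro m hm C'' hC'' S a b ⟨h, rfl⟩ ha hb w hw
    have h1 := hC''.2.2.2.2 (Fin.natAdd C.c 0) m (by rw [ext_len]; exact hm) h
    have h2 : (ext C hL hk q3 e' he hlen hdec3 W (fun _ : Fin 1 => x)).F (Fin.natAdd C.c 0) = x :=
      Fin.append_right C.F (fun _ : Fin 1 => x) 0
    rw [h2] at h1
    have ea : a = C''.e.getD m 0 := D.func _ _ _ _ ha (C''.dec m (by have := C''.len; omega))
    have eb : b = C''.e.getD (m + 1) 0 := D.func _ _ _ _ hb (C''.dec (m + 1) (by have := C''.len; omega))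
    subst ea
    subst eb
    exact h1 C''.p le_rfl w hw

end Pool.Agent.Results.MP_b6db87_lc.SlalomOverNames
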